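import Mathlib

/-!
# MP_ea4033_co: if recolouring with a binary matroid `N` is trivial then `N` dismantles to a loop
or to an edge

If `N` has no dismantling retraction and at least two elements, then the two projections of
the product `N × N` are not joined in `Col(N × N, N)`: every homomorphism in the component of the
first projection is the composition of the first projection and an automorphism of `N`.
-/

set_option autoImplicit false

open Relation

namespace Pool.Agent.Results.MP_ea4033_co.TrivialRecol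

/-- A simple binary matroid (a loop is allowed) on the finite set `E`, represented by a matrix
over `ℤ/2` whose rows are indexed by the finite set `R`, with pairwise distinct columns. -/
structure BMat where
  /-- the ground set -/
  E : Type
  /-- the set of rows -/
  R : Type
  [finE : Fintype E]
  [finR : Fintype R]
  /-- the columns -/
  col : E → R → ZMod 2
  inj : Function.Injective col

attribute [instance] BMat.finE BMat.finR

/-- `Z` is a circuit: a minimal linearly dependent set of columns. -/
def BMat.IsCircuit (M : BMat) (Z : Finset M.E) : Prop :=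
  ¬ LinearIndepOn (ZMod 2) M.col (Z : Set M.E) ∧
    ∀ Z' ⊂ Z, LinearIndepOn (ZMod 2) M.col (Z' : Set M.E)

/-- `C` is a cocircuit: a minimal set whose complement does not span the matroid. -/
def BMat.IsCocircuit (M : BMat) (C : Set M.E) : Prop :=
  Minimal (fun C : Set M.E => Submodule.span (ZMod 2) (M.col '' Cᶜ) ≠
    Submodule.span (ZMod 2) (Set.range M.col)) C

/-- `τ` is a homomorphism of matroids. -/
def IsHom (M N : BMat) (τ : M.E → N.E) : Prop :=
  ∀ Z : Finset M.E, M.IsCircuit Z → ∑ e ∈ Z, N.col (τ e) = 0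

/-- Adjacency in the colouring graph. -/
def Adj (M N : BMat) (τ τ' : M.E → N.E) : Prop :=
  τ ≠ τ' ∧ ∃ C : Set M.E, M.IsCocircuit C ∧ ∃ c : N.R → ZMod 2,
    (∀ e ∈ C, N.col (τ' e) = N.col (τ e) + c) ∧ ∀ e ∉ C, τ' e = τ e

/-- The colouring graph `Col(M, N)` is connected. -/
def ColConnected (M N : BMat) : Prop :=
  ∀ τ τ' : M.E → N.E, IsHom M N τ → IsHom M N τ' →
    ReflTransGen (fun σ σ' => IsHom M N σ ∧ IsHom M N σ' ∧ Adj M N σ σ') τ τ'

/-- `Recol(N)` is trivial. -/
def RecolTrivial (N : BMat) : Prop := ∀ M : BMat, ColConnected M N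

/-- The restriction of `N` to `S`. -/
noncomputable def BMat.restrict (N : BMat) (S : Set N.E) : BMat where
  E := S
  R := N.R
  finE := Fintype.ofFinite _
  col := fun e => N.col e
  inj := N.inj.comp Subtype.val_injective

/-- `ρ` is a dismantling retraction of `N`. -/
def IsDismantlingRetraction (N : BMat) (ρ : N.E → N.E) : Prop :=
  IsHom N N ρ ∧ ρ ∘ ρ = ρ ∧ Adj N N ρ id

/-- `N'` is a copy of `N`: there is a bijection of the ground sets which preserves the independent
sets. -/
def IsCopy (N N' : BMat) : Prop :=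
  ∃ f : N.E ≃ N'.E, ∀ I : Set N.E,
    LinearIndepOn (ZMod 2) N.col I ↔ LinearIndepOn (ZMod 2) N'.col (f '' I)

/-- `N` dismantles to `N'`: a composition of dismantling retractions, each applied to the image
of the previous one, maps `N` onto a copy of `N'`. -/
inductive DismantlesTo : BMat → BMat → Prop
  | copy (N N' : BMat) : IsCopy N N' → DismantlesTo N N'
  | step (N N' : BMat) (ρ : N.E → N.E) : IsDismantlingRetraction N ρ →
      DismantlesTo (N.restrict (Set.range ρ)) N' → DismantlesTo N N'

/-- The loop: one element, a zero column. -/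
def loop : BMat where
  E := Unit
  R := Unit
  col := fun _ _ => 0
  inj := fun _ _ _ => rfl

/-- The edge: one element, a nonzero column. -/
def edge : BMat where
  E := Unit
  R := Unit
  col := fun _ _ => 1
  inj := fun _ _ _ => rfl

/-! ### Circuits -/

theorem exists_sum_of_dep (M : BMat) {Z : Finset M.E}
    (h : ¬ LinearIndepOn (ZMod 2) M.col (Z : Set M.E)) :
    ∃ Y ⊆ Z, Y.Nonempty ∧ ∑ e ∈ Y, M.col e = 0 := by
  classical
  rw [linearIndepOn_finset_iff] at h
  push Not at h
  obtain ⟨f, hf, e, he, hfe⟩ := h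
  refine ⟨Z.filter fun e => f e = 1, Finset.filter_subset _ _, ⟨e, ?_⟩, ?_⟩
  · rw [Finset.mem_filter]
    refine ⟨he, ?_⟩
    revert hfe
    generalize f e = a
    revert a; decide
  · rw [← hf, Finset.sum_filter]
    apply Finset.sum_congr rfl
    intro i _
    split_ifs with h1
    · rw [h1, one_smul]
    · have : f i = 0 := by
        revert h1
        generalize f i = a
        revert a; decide
      rw [this, zero_smul]

theorem dep_of_sum (M : BMat) {Y Z : Finset M.E} (hYZ : Y ⊆ Z) (hY : Y.Nonempty)
    (h : ∑ e ∈ Y, M.col e = 0) : ¬ LinearIndepOn (ZMod 2) M.col (Z : Set M.E) := by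
  classical
  rw [linearIndepOn_finset_iff]
  intro h1
  obtain ⟨e, he⟩ := hY
  have h2 := h1 (fun i => if i ∈ Y then 1 else 0) (by
    rw [← h]
    simp only [ite_smul, one_smul, zero_smul]
    rw [← Finset.sum_filter]
    congr 1
    ext i
    simp only [Finset.mem_filter]
    exact ⟨fun h => h.2, fun h => ⟨hYZ h, h⟩⟩) e (hYZ he)
  simp [he] at h2

theorem IsCircuit.sum_eq_zero {M : BMat} {Z : Finset M.E} (h : M.IsCircuit Z) :
    ∑ e ∈ Z, M.col e = 0 := by
  obtain ⟨Y, hY, hne, hs⟩ := exists_sum_of_dep M h.1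
  rcases eq_or_ssubset_of_subset hY with rfl | hss
  · exact hs
  · exact absurd (h.2 Y hss) (dep_of_sum M (Finset.Subset.refl _) hne hs)

theorem exists_circuit {M : BMat} (n : ℕ) : ∀ Y : Finset M.E, Y.card = n → Y.Nonempty →
    ∑ e ∈ Y, M.col e = 0 → ∃ Z ⊆ Y, Z.Nonempty ∧ M.IsCircuit Z := by
  induction n using Nat.strong_induction_on with
  | _ n ih =>
    intro Y hn hY hs
    by_cases h : ∀ Z' ⊂ Y, LinearIndepOn (ZMod 2) M.col (Z' : Set M.E)
    · exact ⟨Y, Finset.Subset.refl _, hY, dep_of_sum M (Finset.Subset.refl _) hY hs, h⟩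
    · push Not at h
      obtain ⟨Z', hZ', hd⟩ := h
      obtain ⟨Y', hY', hne, hs'⟩ := exists_sum_of_dep M hd
      obtain ⟨Z, hZ, h1⟩ := ih Y'.card (by
        rw [← hn]
        exact Finset.card_lt_card (hY'.trans_ssubset hZ')) Y' rfl hne hs'
      exact ⟨Z, hZ.trans (hY'.trans hZ'.1), h1⟩

theorem sum_hom {M N : BMat} {τ : M.E → N.E} (h : IsHom M N τ) (n : ℕ) :
    ∀ Y : Finset M.E, Y.card = n → ∑ e ∈ Y, M.col e = 0 → ∑ e ∈ Y, N.col (τ e) = 0 := by
  classical
  induction n using Nat.strong_induction_on with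
  | _ n ih =>
    intro Y hn hs
    rcases Y.eq_empty_or_nonempty with rfl | hY
    · simp
    · obtain ⟨Z, hZ, hZne, hZc⟩ := exists_circuit Y.card Y rfl hY hs
      have h1 := h Z hZc
      have h2 := IsCircuit.sum_eq_zero hZc
      have h3 : ∑ e ∈ Y \ Z, M.col e = 0 := by
        rw [← Finset.sum_sdiff hZ, h2, add_zero] at hs
        exact hs
      have h4 := ih (Y \ Z).card (by
        rw [← hn]
        apply Finset.card_lt_card
        exact Finset.sdiff_ssubset hZ hZne) (Y \ Z) rfl h3
      rw [← Finset.sum_sdiff hZ, h1, h4, add_zero]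

/-- A homomorphism is induced by a linear map. -/
theorem exists_linear {M N : BMat} {τ : M.E → N.E} (h : IsHom M N τ) :
    ∃ φ : (M.R → ZMod 2) →ₗ[ZMod 2] (N.R → ZMod 2), ∀ e, φ (M.col e) = N.col (τ e) := by
  classical
  set f := Fintype.linearCombination (ZMod 2) M.col with hf
  set g := Fintype.linearCombination (ZMod 2) (fun e => N.col (τ e)) with hg
  have hfg : LinearMap.ker f ≤ LinearMap.ker g := by
    intro x hx
    rw [LinearMap.mem_ker, Fintype.linearCombination_apply] at hx ⊢
    have key : ∀ (N' : BMat) (σ : M.E → N'.R → ZMod 2), ∑ i, x i • σ i =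
        ∑ i ∈ Finset.univ.filter (fun i => x i = 1), σ i := by
      intro N' σ
      rw [Finset.sum_filter]
      apply Finset.sum_congr rfl
      intro i _
      split_ifs with h1
      · rw [h1, one_smul]
      · have : x i = 0 := by
          revert h1
          generalize x i = a
          revert a; decide
        rw [this, zero_smul]
    rw [key M M.col] at hx
    rw [key N fun e => N.col (τ e)]
    exact sum_hom h _ _ rfl hx
  obtain ⟨φ, hφ⟩ := LinearMap.exists_extend
    (((LinearMap.ker f).liftQ g hfg).comp f.quotKerEquivRange.symm.toLinearMap)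
  refine ⟨φ, fun e => ?_⟩
  have h1 : f (Pi.single e 1) = M.col e := by
    rw [hf, Fintype.linearCombination_apply_single, one_smul]
  have h2 : g (Pi.single e 1) = N.col (τ e) := by
    rw [hg, Fintype.linearCombination_apply_single, one_smul]
  have h3 := LinearMap.congr_fun hφ ⟨f (Pi.single e 1), LinearMap.mem_range_self f _⟩
  rw [LinearMap.comp_apply, Submodule.subtype_apply, LinearMap.comp_apply] at h3
  rw [← h1, h3, ← h2]
  have h4 : f.quotKerEquivRange.symm ⟨f (Pi.single e 1), LinearMap.mem_range_self f _⟩ =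
      (LinearMap.ker f).mkQ (Pi.single e 1) := by
    rw [LinearEquiv.symm_apply_eq]
    rfl
  rw [LinearEquiv.coe_coe, h4]
  rfl

theorem isHom_of_linear {M N : BMat} {τ : M.E → N.E}
    (φ : (M.R → ZMod 2) →ₗ[ZMod 2] (N.R → ZMod 2)) (h : ∀ e, N.col (τ e) = φ (M.col e)) :
    IsHom M N τ := by
  intro Z hZ
  simp only [h]
  rw [← map_sum, IsCircuit.sum_eq_zero hZ, map_zero]

/-! ### Cocircuits -/

theorem zmod2 {a : ZMod 2} : a = 0 ∨ a = 1 := by
  revert a; decide

theorem add_self_vec {R : Type} (c : R → ZMod 2) : c + c = 0 := by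
  ext i
  simp only [Pi.add_apply, Pi.zero_apply]
  generalize c i = a
  revert a; decide

/-- A functional which vanishes on the complement of the cocircuit `C`, and nowhere on `C`. -/
theorem exists_functional {M : BMat} {C : Set M.E} (h : M.IsCocircuit C) :
    ∃ l : (M.R → ZMod 2) →ₗ[ZMod 2] ZMod 2, ∀ e, (e ∈ C → l (M.col e) = 1) ∧
      (e ∉ C → l (M.col e) = 0) := by
  have hle : Submodule.span (ZMod 2) (M.col '' Cᶜ) ≤
      Submodule.span (ZMod 2) (Set.range M.col) :=
    Submodule.span_mono (Set.image_subset_range _ _)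
  obtain ⟨x, hx, hx'⟩ := SetLike.exists_of_lt (lt_of_le_of_ne hle h.prop)
  obtain ⟨l, hlx, hl⟩ := Submodule.exists_le_ker_of_notMem hx'
  refine ⟨l, fun e => ⟨fun he => ?_, fun he => ?_⟩⟩
  · rcases zmod2 (a := l (M.col e)) with h1 | h1
    · exfalso
      have h2 : Submodule.span (ZMod 2) (M.col '' (C \ {e})ᶜ) ≠
          Submodule.span (ZMod 2) (Set.range M.col) := by
        intro h3
        apply hlx
        have h4 : Submodule.span (ZMod 2) (M.col '' (C \ {e})ᶜ) ≤ LinearMap.ker l := by
          rw [Submodule.span_le]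
          rintro _ ⟨f, hf, rfl⟩
          by_cases hfe : f = e
          · rw [hfe]; exact h1
          · exact hl (Submodule.subset_span ⟨f, fun h5 => hf ⟨h5, hfe⟩, rfl⟩)
        rw [h3] at h4
        exact h4 hx
      have h3 := h.le_of_le h2 Set.sdiff_subset he
      exact h3.2 rfl
    · exact h1
  · exact hl (Submodule.subset_span ⟨e, he, rfl⟩)

/-- The set of the elements on which a functional does not vanish. -/
def supp (M : BMat) (l : (M.R → ZMod 2) →ₗ[ZMod 2] ZMod 2) : Set M.E := {e | l (M.col e) = 1}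

theorem span_compl_supp {M : BMat} {l : (M.R → ZMod 2) →ₗ[ZMod 2] ZMod 2} {C : Set M.E}
    (hC : supp M l ⊆ C) (hne : (supp M l).Nonempty) :
    Submodule.span (ZMod 2) (M.col '' Cᶜ) ≠ Submodule.span (ZMod 2) (Set.range M.col) := by
  intro h
  obtain ⟨e, he⟩ := hne
  have h1 : Submodule.span (ZMod 2) (M.col '' Cᶜ) ≤ LinearMap.ker l := by
    rw [Submodule.span_le]
    rintro _ ⟨f, hf, rfl⟩
    rcases zmod2 (a := l (M.col f)) with h2 | h2
    · exact h2
    · exact absurd (hC h2) hf
  rw [h] at h1
  have h2 : l (M.col e) = 0 := h1 (Submodule.subset_span ⟨e, rfl⟩)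
  have h3 : l (M.col e) = 1 := he
  rw [h2] at h3
  exact absurd h3 (by decide)

/-- If the translation by `c` maps the support of a functional `m` with `m c = 1` into `N`, then
`N` has a dismantling retraction. -/
theorem exists_retraction {N : BMat} (c : N.R → ZMod 2)
    (hc : c ∈ Submodule.span (ZMod 2) (Set.range N.col))
    (m : (N.R → ZMod 2) →ₗ[ZMod 2] ZMod 2) (hmc : m c = 1)
    (hm : ∀ e ∈ supp N m, ∃ f, N.col f = N.col e + c) :
    ∃ ρ, IsDismantlingRetraction N ρ := by
  classical
  -- a functional with minimal support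
  obtain ⟨S, ⟨⟨l, hlc, rfl⟩, hlm⟩, hmin⟩ : ∃ S : Set N.E, Minimal (fun S : Set N.E =>
      (∃ l : (N.R → ZMod 2) →ₗ[ZMod 2] ZMod 2, l c = 1 ∧ supp N l = S) ∧ S ⊆ supp N m) S := by
    have hfin : {S : Set N.E | (∃ l : (N.R → ZMod 2) →ₗ[ZMod 2] ZMod 2, l c = 1 ∧
        supp N l = S) ∧ S ⊆ supp N m}.Finite := Set.toFinite _
    obtain ⟨S, hS⟩ := hfin.exists_minimal ⟨supp N m, ⟨m, hmc, rfl⟩, subset_rfl⟩
    exact ⟨S, hS⟩
  have hnonempty : ∀ l' : (N.R → ZMod 2) →ₗ[ZMod 2] ZMod 2, l' c = 1 →
      (supp N l').Nonempty := by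
    intro l' hl'
    by_contra hemp
    rw [Set.not_nonempty_iff_eq_empty] at hemp
    have h1 : Submodule.span (ZMod 2) (Set.range N.col) ≤ LinearMap.ker l' := by
      rw [Submodule.span_le]
      rintro _ ⟨f, rfl⟩
      rcases zmod2 (a := l' (N.col f)) with h2 | h2
      · exact h2
      · have : f ∈ supp N l' := h2
        rw [hemp] at this
        exact absurd this (Set.notMem_empty f)
    have h2 : l' c = 0 := h1 hc
    rw [hl'] at h2
    exact absurd h2 (by decide)
  have hcocirc : N.IsCocircuit (supp N l) := by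
    refine ⟨span_compl_supp subset_rfl (hnonempty l hlc), ?_⟩
    intro C hC hCS
    have hle : Submodule.span (ZMod 2) (N.col '' Cᶜ) ≤
        Submodule.span (ZMod 2) (Set.range N.col) :=
      Submodule.span_mono (Set.image_subset_range _ _)
    obtain ⟨x, hx, hx'⟩ := SetLike.exists_of_lt (lt_of_le_of_ne hle hC)
    obtain ⟨k, hkx, hk⟩ := Submodule.exists_le_ker_of_notMem hx'
    have hkC : supp N k ⊆ C := by
      intro e he
      by_contra heC
      have h1 : k (N.col e) = 0 := hk (Submodule.subset_span ⟨e, heC, rfl⟩)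
      have h2 : k (N.col e) = 1 := he
      rw [h1] at h2
      exact absurd h2 (by decide)
    have hkne : (supp N k).Nonempty := by
      by_contra hemp
      rw [Set.not_nonempty_iff_eq_empty] at hemp
      apply hkx
      have h1 : Submodule.span (ZMod 2) (Set.range N.col) ≤ LinearMap.ker k := by
        rw [Submodule.span_le]
        rintro _ ⟨f, rfl⟩
        rcases zmod2 (a := k (N.col f)) with h2 | h2
        · exact h2
        · have : f ∈ supp N k := h2
          rw [hemp] at this
          exact absurd this (Set.notMem_empty f)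
      exact h1 hx
    rcases zmod2 (a := k c) with h1 | h1
    · -- use `l + k`
      have h2 : supp N (l + k) = supp N l \ supp N k := by
        ext e
        have h3 : e ∈ supp N k → e ∈ supp N l := fun h => hCS (hkC h)
        simp only [supp, Set.mem_sdiff, Set.mem_ofPred_eq, LinearMap.add_apply] at h3 ⊢
        revert h3
        generalize l (N.col e) = a
        generalize k (N.col e) = b
        revert a b; decide
      have h3 := hmin ⟨⟨l + k, by rw [LinearMap.add_apply, hlc, h1, add_zero], rfl⟩,
        by rw [h2]; exact Set.sdiff_subset.trans hlm⟩ (by rw [h2]; exact Set.sdiff_subset)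
      obtain ⟨e, he⟩ := hkne
      have h4 := h3 (hCS (hkC he))
      rw [h2] at h4
      exact absurd he h4.2
    · exact (hmin ⟨⟨k, h1, rfl⟩, (hkC.trans hCS).trans hlm⟩ (hkC.trans hCS)).trans hkC
  -- the retraction
  have hex : ∀ e : N.E, ∃ f, N.col f = N.col e + l (N.col e) • c := by
    intro e
    rcases zmod2 (a := l (N.col e)) with h1 | h1
    · exact ⟨e, by rw [h1, zero_smul, add_zero]⟩
    · obtain ⟨f, hf⟩ := hm e (hlm h1)
      exact ⟨f, by rw [h1, one_smul, hf]⟩
  choose ρ hρ using hex
  have hcc := add_self_vec c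
  refine ⟨ρ, ?_, ?_, ?_, supp N l, hcocirc, c, ?_, ?_⟩
  · apply isHom_of_linear (LinearMap.id + l.smulRight c)
    intro e
    rw [hρ, LinearMap.add_apply, LinearMap.id_apply, LinearMap.smulRight_apply]
  · ext e
    apply N.inj
    rw [Function.comp_apply, hρ, hρ, map_add, map_smul, hlc, smul_eq_mul, mul_one]
    rcases zmod2 (a := l (N.col e)) with h1 | h1
    · simp [h1]
    · rw [h1]
      simp [show (1 : ZMod 2) + 1 = 0 by decide]
  · intro h
    obtain ⟨e, he⟩ := hnonempty l hlc
    have h1 := hρ e
    rw [h, id, show l (N.col e) = 1 from he, one_smul] at h1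
    have h2 : c = 0 := by
      have := congrArg (fun z => z - N.col e) h1
      simpa using this.symm
    rw [h2, map_zero] at hlc
    exact absurd hlc (by decide)
  · intro e he
    rw [hρ, show l (N.col e) = 1 from he, one_smul, add_assoc, hcc, add_zero, id]
  · intro e he
    apply N.inj
    rcases zmod2 (a := l (N.col e)) with h1 | h1
    · rw [hρ, h1, zero_smul, add_zero, id]
    · exact absurd h1 he

/-! ### The product `N × N` -/

/-- The product. -/
def prod (N : BMat) : BMat where
  E := N.E × N.E
  R := N.R ⊕ N.R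
  col := fun e => Sum.elim (N.col e.1) (N.col e.2)
  inj := by
    intro e f h
    refine Prod.ext (N.inj ?_) (N.inj ?_)
    · ext i
      exact congrFun h (Sum.inl i)
    · ext i
      exact congrFun h (Sum.inr i)

theorem isHom_fst (N : BMat) : IsHom (prod N) N Prod.fst := by
  apply isHom_of_linear (LinearMap.funLeft (ZMod 2) (ZMod 2) Sum.inl)
  intro e
  rfl

theorem isHom_snd (N : BMat) : IsHom (prod N) N Prod.snd := by
  apply isHom_of_linear (LinearMap.funLeft (ZMod 2) (ZMod 2) Sum.inr)
  intro e
  rfl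

theorem isHom_comp {M N K : BMat} {τ : M.E → N.E} {σ : N.E → K.E} (h : IsHom M N τ)
    (h' : IsHom N K σ) : IsHom M K (σ ∘ τ) := by
  obtain ⟨φ, hφ⟩ := exists_linear h'
  intro Z hZ
  have : ∑ e ∈ Z, K.col ((σ ∘ τ) e) = φ (∑ e ∈ Z, N.col (τ e)) := by
    rw [map_sum]
    apply Finset.sum_congr rfl
    intro e _
    rw [hφ, Function.comp_apply]
  rw [this, h Z hZ, map_zero]

/-- A functional on the product splits. -/
theorem exists_split {N : BMat} (l : ((prod N).R → ZMod 2) →ₗ[ZMod 2] ZMod 2) :
    ∃ a b : (N.R → ZMod 2) →ₗ[ZMod 2] ZMod 2, ∀ e f : N.E,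
      l ((prod N).col (e, f)) = a (N.col e) + b (N.col f) := by
  let i₁ : (N.R → ZMod 2) →ₗ[ZMod 2] (N.R ⊕ N.R → ZMod 2) :=
    { toFun := fun x => Sum.elim x 0
      map_add' := by intro x y; ext i; cases i <;> simp
      map_smul' := by intro x y; ext i; cases i <;> simp }
  let i₂ : (N.R → ZMod 2) →ₗ[ZMod 2] (N.R ⊕ N.R → ZMod 2) :=
    { toFun := fun x => Sum.elim 0 x
      map_add' := by intro x y; ext i; cases i <;> simp
      map_smul' := by intro x y; ext i; cases i <;> simp }
  refine ⟨l.comp i₁, l.comp i₂, fun e f => ?_⟩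
  rw [LinearMap.comp_apply, LinearMap.comp_apply, ← map_add]
  congr 1
  ext i
  cases i with
  | inl i =>
    show N.col e i = N.col e i + 0
    rw [add_zero]
  | inr i =>
    show N.col f i = 0 + N.col f i
    rw [zero_add]

/-- `g` is an automorphism with inverse `g'`. -/
def IsAut (N : BMat) (g g' : N.E → N.E) : Prop :=
  IsHom N N g ∧ IsHom N N g' ∧ (∀ e, g (g' e) = e) ∧ ∀ e, g' (g e) = e

theorem isHom_id (N : BMat) : IsHom N N id :=
  isHom_of_linear LinearMap.id fun _ => rfl

theorem isAut_id (N : BMat) : IsAut N id id := ⟨isHom_id N, isHom_id N, fun _ => rfl, fun _ => rfl⟩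

/-- The main step. -/
theorem core {N : BMat} (hst : ¬ ∃ ρ, IsDismantlingRetraction N ρ) {σ : N.E × N.E → N.E}
    {c : N.R → ZMod 2} {a b : (N.R → ZMod 2) →ₗ[ZMod 2] ZMod 2}
    (h : ∀ e f, N.col (σ (e, f)) = N.col e + (a (N.col e) + b (N.col f)) • c) :
    ∃ k k', IsAut N k k' ∧ ∀ e f, σ (e, f) = k e := by
  have hcc := add_self_vec c
  by_cases hc : c = 0
  · refine ⟨id, id, isAut_id N, fun e f => ?_⟩
    apply N.inj
    rw [h, hc, smul_zero, add_zero, id]
  -- a functional which is nonzero at `c`
  obtain ⟨i, hi⟩ := Function.ne_iff.1 hc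
  have hi1 : c i = 1 := by
    rcases zmod2 (a := c i) with h1 | h1
    · exact absurd h1 hi
    · exact h1
  -- the first component determines everything
  obtain ⟨m, hm⟩ : ∃ m : (N.R → ZMod 2) →ₗ[ZMod 2] ZMod 2, ∀ e f,
      a (N.col e) + b (N.col f) = m (N.col e) := by
    by_cases hb : ∀ f f', b (N.col f) = b (N.col f')
    · by_cases hb0 : ∀ f, b (N.col f) = 0
      · exact ⟨a, fun e f => by rw [hb0, add_zero]⟩
      · push Not at hb0
        obtain ⟨f₀, hf₀⟩ := hb0
        refine ⟨a + b, fun e f => ?_⟩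
        rw [LinearMap.add_apply, hb f e]
    · exfalso
      push Not at hb
      obtain ⟨f₁, f₂, hf⟩ := hb
      have key : ∀ e, ∃ f, N.col f = N.col e + c := by
        intro e
        have h1 := h e f₁
        have h2 := h e f₂
        rcases zmod2 (a := a (N.col e) + b (N.col f₁)) with h3 | h3
        · rcases zmod2 (a := a (N.col e) + b (N.col f₂)) with h4 | h4
          · exfalso
            apply hf
            have := h3.trans h4.symm
            exact add_left_cancel this
          · rw [h4, one_smul] at h2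
            exact ⟨_, h2⟩
        · rw [h3, one_smul] at h1
          exact ⟨_, h1⟩
      apply hst
      obtain ⟨f, hf'⟩ := key f₁
      refine exists_retraction c ?_ (LinearMap.proj i) hi1 (fun e _ => key e)
      have : c = N.col f + N.col f₁ := by
        rw [hf', add_assoc, add_comm c, ← add_assoc, add_self_vec, zero_add]
      rw [this]
      exact Submodule.add_mem _ (Submodule.subset_span ⟨f, rfl⟩) (Submodule.subset_span ⟨f₁, rfl⟩)
  have h' : ∀ e f, N.col (σ (e, f)) = N.col e + m (N.col e) • c := by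
    intro e f
    rw [h, hm]
  rcases zmod2 (a := m c) with hmc | hmc
  · refine ⟨fun e => σ (e, e), fun e => σ (e, e), ⟨?_, ?_, ?_, ?_⟩, ?_⟩
    · apply isHom_of_linear (LinearMap.id + m.smulRight c)
      intro e
      rw [h', LinearMap.add_apply, LinearMap.id_apply, LinearMap.smulRight_apply]
    · apply isHom_of_linear (LinearMap.id + m.smulRight c)
      intro e
      rw [h', LinearMap.add_apply, LinearMap.id_apply, LinearMap.smulRight_apply]
    · intro e
      apply N.inj
      rw [h', h', map_add, map_smul, hmc, smul_zero, add_zero, add_assoc, ← smul_add, hcc,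
        smul_zero, add_zero]
    · intro e
      apply N.inj
      rw [h', h', map_add, map_smul, hmc, smul_zero, add_zero, add_assoc, ← smul_add, hcc,
        smul_zero, add_zero]
    · intro e f
      apply N.inj
      rw [h', h']
  · by_cases hz : ∀ e, m (N.col e) = 0
    · refine ⟨id, id, isAut_id N, fun e f => ?_⟩
      apply N.inj
      rw [h', hz, zero_smul, add_zero, id]
    · exfalso
      push Not at hz
      obtain ⟨e, he⟩ := hz
      have he1 : m (N.col e) = 1 := by
        rcases zmod2 (a := m (N.col e)) with h1 | h1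
        · exact absurd h1 he
        · exact h1
      apply hst
      refine exists_retraction c ?_ m hmc (fun e he => ⟨σ (e, e), ?_⟩)
      · have h1 := h' e e
        rw [he1, one_smul] at h1
        have : c = N.col (σ (e, e)) + N.col e := by
          rw [h1, add_assoc, add_comm c, ← add_assoc, add_self_vec, zero_add]
        rw [this]
        exact Submodule.add_mem _ (Submodule.subset_span ⟨_, rfl⟩)
          (Submodule.subset_span ⟨e, rfl⟩)
      · rw [h', show m (N.col e) = 1 from he, one_smul]

theorem step_aut {N : BMat} (hst : ¬ ∃ ρ, IsDismantlingRetraction N ρ)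
    {σ σ' : (prod N).E → N.E} (hadj : Adj (prod N) N σ σ')
    (h : ∃ g g', IsAut N g g' ∧ ∀ e f, σ (e, f) = g e) :
    ∃ g g', IsAut N g g' ∧ ∀ e f, σ' (e, f) = g e := by
  obtain ⟨g, g', ⟨hg, hg', hgg', hg'g⟩, hσ⟩ := h
  obtain ⟨-, C, hC, c, hC1, hC2⟩ := hadj
  obtain ⟨l, hl⟩ := exists_functional hC
  obtain ⟨a, b, hab⟩ := exists_split l
  obtain ⟨φ', hφ'⟩ := exists_linear hg'
  have h1 : ∀ e f, N.col (g' (σ' (e, f))) =
      N.col e + (a (N.col e) + b (N.col f)) • φ' c := by
    intro e f
    rw [← hab, ← hφ']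
    by_cases he : (e, f) ∈ C
    · rw [(hl (e, f)).1 he, one_smul, hC1 (e, f) he, map_add, hφ', hσ, hg'g]
    · rw [(hl (e, f)).2 he, zero_smul, add_zero, hC2 (e, f) he, hφ', hσ, hg'g]
  obtain ⟨k, k', ⟨hk, hk', hkk', hk'k⟩, hσk⟩ := core hst (σ := fun x => g' (σ' x)) h1
  refine ⟨g ∘ k, k' ∘ g', ⟨isHom_comp hk hg, isHom_comp hg' hk', fun e => ?_, fun e => ?_⟩,
    fun e f => ?_⟩
  · simp only [Function.comp_apply]
    rw [hkk', hgg']
  · simp only [Function.comp_apply]
    rw [hg'g, hk'k]
  · have h2 : g' (σ' (e, f)) = k e := hσk e f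
    rw [Function.comp_apply, ← h2, hgg']

/-- A matroid without dismantling retractions for which recolouring is trivial has at most one
element. -/
theorem subsingleton {N : BMat} (hst : ¬ ∃ ρ, IsDismantlingRetraction N ρ)
    (h : RecolTrivial N) : ∀ e f : N.E, e = f := by
  have key : ∀ σ, ReflTransGen (fun σ σ' => IsHom (prod N) N σ ∧ IsHom (prod N) N σ' ∧
      Adj (prod N) N σ σ') Prod.fst σ → ∃ g g', IsAut N g g' ∧ ∀ e f, σ (e, f) = g e := by
    intro σ hσ
    induction hσ with
    | refl => exact ⟨id, id, isAut_id N, fun e f => rfl⟩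
    | tail _ hstep ih => exact step_aut hst hstep.2.2 ih
  obtain ⟨g, g', -, hg⟩ := key Prod.snd (h (prod N) _ _ (isHom_fst N) (isHom_snd N))
  intro e f
  have h1 := hg e e
  have h2 := hg e f
  simp only at h1 h2
  rw [h1, h2]

/-! ### Dismantling preserves triviality -/

theorem restrict_trivial {N : BMat} {ρ : N.E → N.E} (hρ : IsDismantlingRetraction N ρ)
    (h : RecolTrivial N) : RecolTrivial (N.restrict (Set.range ρ)) := by
  intro M τ τ' hτ hτ'
  obtain ⟨φ, hφ⟩ := exists_linear hρ.1
  have hid : ∀ x : (N.restrict (Set.range ρ)).E, ρ x.1 = x.1 := by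
    rintro ⟨_, e, rfl⟩
    exact congrFun hρ.2.1 e
  set r : N.E → (N.restrict (Set.range ρ)).E := fun e => ⟨ρ e, e, rfl⟩ with hr
  have hcol : ∀ e, (N.restrict (Set.range ρ)).col (r e) = φ (N.col e) := by
    intro e
    rw [hφ]
    rfl
  have hlift : ∀ σ : M.E → (N.restrict (Set.range ρ)).E, IsHom M (N.restrict (Set.range ρ)) σ →
      IsHom M N (fun e => (σ e).1) := fun σ hσ Z hZ => hσ Z hZ
  have hproj : ∀ σ : M.E → N.E, IsHom M N σ →
      IsHom M (N.restrict (Set.range ρ)) (fun e => r (σ e)) := by
    intro σ hσ Z hZ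
    show ∑ e ∈ Z, N.col (ρ (σ e)) = 0
    simp only [← hφ]
    rw [← map_sum, hσ Z hZ, map_zero]
  have hpath := h M _ _ (hlift τ hτ) (hlift τ' hτ')
  have key : ∀ σ, ReflTransGen (fun σ σ' => IsHom M N σ ∧ IsHom M N σ' ∧ Adj M N σ σ')
      (fun e => (τ e).1) σ → ReflTransGen (fun σ σ' => IsHom M (N.restrict (Set.range ρ)) σ ∧
      IsHom M (N.restrict (Set.range ρ)) σ' ∧ Adj M (N.restrict (Set.range ρ)) σ σ')
      (fun e => r (τ e).1) (fun e => r (σ e)) := by
    intro σ hσ
    induction hσ with
    | refl => exact ReflTransGen.refl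
    | tail _ hstep ih =>
      rename_i σ₁ σ₂ _
      by_cases heq : (fun e => r (σ₁ e)) = fun e => r (σ₂ e)
      · rw [← heq]; exact ih
      · refine ih.tail ⟨hproj _ hstep.1, hproj _ hstep.2.1, heq, ?_⟩
        obtain ⟨-, C, hC, c, hC1, hC2⟩ := hstep.2.2
        refine ⟨C, hC, φ c, fun e he => ?_, fun e he => ?_⟩
        · show N.col (ρ (σ₂ e)) = N.col (ρ (σ₁ e)) + φ c
          rw [← hφ, ← hφ, hC1 e he, map_add]
        · show r (σ₂ e) = r (σ₁ e)
          rw [hC2 e he]
  have h1 := key _ hpath
  have h2 : ∀ σ : M.E → (N.restrict (Set.range ρ)).E, (fun e => r (σ e).1) = σ := by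
    intro σ
    ext e
    exact Subtype.ext (hid (σ e))
  rw [h2, h2] at h1
  exact h1

theorem copy_of_subsingleton {N : BMat} (e : N.E) (h : ∀ e f : N.E, e = f) :
    IsCopy N loop ∨ IsCopy N edge := by
  have huniv : ∀ I : Set N.E, I = ∅ ∨ I = {e} := by
    intro I
    rcases I.eq_empty_or_nonempty with h1 | ⟨f, hf⟩
    · exact Or.inl h1
    · right
      ext x
      rw [h x f, h f e]
      rw [h f e] at hf
      simp [hf]
  let F : N.E ≃ Unit := ⟨fun _ => (), fun _ => e, fun f => h e f, fun _ => rfl⟩
  by_cases h0 : N.col e = 0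
  · left
    refine ⟨F, fun I => ?_⟩
    rcases huniv I with rfl | rfl
    · simp
    · rw [Set.image_singleton, linearIndepOn_singleton_iff, linearIndepOn_singleton_iff]
      exact iff_of_false (fun h1 => h1 h0) (fun h1 => h1 rfl)
  · right
    refine ⟨F, fun I => ?_⟩
    rcases huniv I with rfl | rfl
    · simp
    · rw [Set.image_singleton, linearIndepOn_singleton_iff, linearIndepOn_singleton_iff]
      refine iff_of_true h0 (fun h1 => ?_)
      have : (1 : ZMod 2) = 0 := congrFun h1 ()
      exact absurd this (by decide)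

/-- **Theorem.** If `Recol(N)` is trivial, where the binary matroid `N` has at least one element,
then `N` dismantles to the loop or to the edge. -/
theorem result : ∀ N : BMat, Nonempty N.E → RecolTrivial N →
    DismantlesTo N loop ∨ DismantlesTo N edge := by
  have key : ∀ (n : ℕ) (N : BMat), Nat.card N.E = n → Nonempty N.E → RecolTrivial N →
      DismantlesTo N loop ∨ DismantlesTo N edge := by
    intro n
    induction n using Nat.strong_induction_on with
    | _ n ih =>
      intro N hn hne h
      by_cases hst : ∃ ρ, IsDismantlingRetraction N ρ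
      · obtain ⟨ρ, hρ⟩ := hst
        obtain ⟨e⟩ := hne
        have hlt : Nat.card (N.restrict (Set.range ρ)).E < n := by
          rw [← hn]
          have h1 : (Set.range ρ) ≠ Set.univ := by
            intro h1
            apply hρ.2.2.1
            ext f
            have : f ∈ Set.range ρ := by rw [h1]; trivial
            obtain ⟨f', rfl⟩ := this
            exact congrFun hρ.2.1 f'
          have h2 : (Set.range ρ).ncard < (Set.univ : Set N.E).ncard :=
            Set.ncard_lt_ncard (Set.ssubset_univ_iff.2 h1) (Set.toFinite _)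
          rwa [Set.ncard_univ] at h2
        rcases ih _ hlt (N.restrict (Set.range ρ)) rfl ⟨⟨ρ e, e, rfl⟩⟩
          (restrict_trivial hρ h) with h1 | h1
        · exact Or.inl (DismantlesTo.step _ _ ρ hρ h1)
        · exact Or.inr (DismantlesTo.step _ _ ρ hρ h1)
      · obtain ⟨e⟩ := hne
        rcases copy_of_subsingleton e (subsingleton hst h) with h1 | h1
        · exact Or.inl (DismantlesTo.copy _ _ h1)
        · exact Or.inr (DismantlesTo.copy _ _ h1)
  exact fun N hne h => key _ N rfl hne h

end Pool.Agent.Results.MP_ea4033_co.TrivialRecol
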